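import Pool.Agent.H69Fu.Def
import Pool.Agent.H39H.DltH

/-!
# Package DltH: definability of good pairs, without any regime
-/

set_option autoImplicit false

namespace Pool.Agent.H69Fu

open Finset Polynomial Pool.Agent.Grz Pool.Agent.GAvg Pool.Agent.PTr Pool.Agent.MTr
open Pool.Agent.LPC Pool.Agent.ECD Pool.Agent.LinU Pool.Agent.H39H

variable {n m : ℕ} {T : ℕ → (Fin n → ℕ) → ℕ}

theorem goodH_delta (hT : DFun (n + 1) (fun w => T (w 0) (fun i => w i.succ)))
    {τ : Fin n → (Fin m → ℕ) → ℕ} (hτ : ∀ i, DFun m (τ i))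
    {q N e x j ν P B : (Fin m → ℕ) → ℕ} (hq : DFun m q) (hN : DFun m N) (he : DFun m e)
    (hx : DFun m x) (hj : DFun m j) (hν : DFun m ν) (hP : DFun m P) (hB : DFun m B)
    (h2 : ∀ v, 2 ≤ q v) (hN1 : ∀ v, 1 ≤ N v) (hqN : ∀ v, q v ^ N v ≤ B v)
    (hqe : ∀ v, q v ^ e v ≤ B v) (hel : ∀ v, e v ≤ lg (N v) + 3)
    (hTb : ∀ v z, z < q v ^ N v → T z (fun i => τ i v) < q v ^ N v)
    (hlin : ∀ v, ∃ A : Matrix (Fin (N v)) (Fin (N v)) (ZMod (q v)), ∀ z, z < q v ^ N v →
      vecOf (q v) (N v) (T z (fun i => τ i v)) = A.mulVec (vecOf (q v) (N v) z)) :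
    Delta0 m (fun v => GoodH (q v) (N v) (e v) (x v) (fun z => T z (fun i => τ i v))
      (j v) (ν v) (P v)) := by
  have hlin' : ∀ v, ∃ A : Module.End (ZMod (q v)) (Fin (N v) → ZMod (q v)),
      ∀ z, z < q v ^ N v → vecOf (q v) (N v) (T z (fun i => τ i v)) =
        A (vecOf (q v) (N v) z) := by
    intro v
    obtain ⟨A, hA⟩ := hlin v
    exact ⟨A.mulVecLin, hA⟩
  have hqNd : DFun m (fun v => q v ^ N v) := dfun_powLe hq hN hB hqN
  have hqed : DFun m (fun v => q v ^ e v) := dfun_powLe hq he hB hqe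
  -- the variables `(h, U, g, v)`
  have hD := H63LB.divU_delta (m := m + 1 + 1 + 1) hq.weak.weak.weak hN.weak.weak.weak
    he.weak.weak.weak (g := fun u => u (Fin.succ (Fin.succ 0))) (DFun.proj _)
    (U := fun u => u (Fin.succ 0)) (DFun.proj _) hν.weak.weak.weak hP.weak.weak.weak
    (h := fun u => u 0) (DFun.proj _) hB.weak.weak.weak (fun u => h2 _) (fun u => hqN _)
    fun u => hqe _
  have hE := DltH_bex (m := m + 1 + 1)
    (b := fun u => q (fun i => u i.succ.succ) ^ N (fun i => u i.succ.succ)) hqNd.weak.weak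
    (P := fun h u => H63LB.DivU (q (fun i => u i.succ.succ)) (N (fun i => u i.succ.succ))
      (e (fun i => u i.succ.succ)) (u (Fin.succ 0)) (u 0) (ν (fun i => u i.succ.succ))
      (P (fun i => u i.succ.succ)) h) hD
  have hR := rch_delta (m := m + 1 + 1) hT (τ := fun i u => τ i (fun k => u k.succ.succ))
    (fun i => (hτ i).weak.weak) hq.weak.weak hN.weak.weak he.weak.weak
    hx.weak.weak hj.weak.weak (g := fun u => u (Fin.succ 0)) (DFun.proj _)
    (U := fun u => u 0) (DFun.proj _) hB.weak.weak (fun u => h2 _)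
    (fun u => hqN _) (fun u => hel _) (fun u => hTb _) (fun u => hlin' _)
  have hF' := DltH_ball (m := m + 1) (b := fun u => q (fun i => u i.succ) ^ e (fun i => u i.succ))
    hqed.weak
    (P := fun U u => RCH (q (fun i => u i.succ)) (N (fun i => u i.succ)) (e (fun i => u i.succ))
      (x (fun i => u i.succ)) (fun z => T z (fun i => τ i (fun k => u k.succ)))
      (j (fun i => u i.succ)) (u 0) U → ∃ h, h < q (fun i => u i.succ) ^ N (fun i => u i.succ) ∧
        H63LB.DivU (q (fun i => u i.succ)) (N (fun i => u i.succ)) (e (fun i => u i.succ)) (u 0) U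
          (ν (fun i => u i.succ)) (P (fun i => u i.succ)) h) (hR.imp hE)
  exact DltH_ball (m := m) (b := fun v => q v ^ e v) hqed
    (P := fun g v => ∀ U, U < q v ^ e v → RCH (q v) (N v) (e v) (x v)
      (fun z => T z (fun i => τ i v)) (j v) g U →
      ∃ h, h < q v ^ N v ∧ H63LB.DivU (q v) (N v) (e v) g U (ν v) (P v) h) hF'

end Pool.Agent.H69Fu
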