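import Pool.Agent.H69Fu.GB
import Pool.Agent.H69Fu.DltH
import Pool.Agent.H63LB.Core

/-!
# Full regime: iterates, prime power modulus, linear maps
-/

set_option autoImplicit false

namespace Pool.Agent.H69Fu

open Finset Polynomial Pool.Agent.Grz Pool.Agent.GAvg Pool.Agent.PTr Pool.Agent.MTr
open Pool.Agent.LPC Pool.Agent.ECD Pool.Agent.LinU

/-- `y` is the digit `j` of `T^t x` -/
def DigH (q N e x : ℕ) (T : ℕ → ℕ) (j t y : ℕ) : Prop :=
  ∃ ν, ν < q ^ N ∧ ∃ P, P < q ^ N ∧ (GoodH q N e x T j ν P ∧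
    y = dg q (cde N ((X ^ t * pol (ZMod q) q N P) %ₘ mu (ZMod q) q N ν)) (N - 1))

theorem digH_iff {p k q N e x j t y : ℕ} {T : ℕ → ℕ} (hp : p.Prime) (hk : 0 < k)
    (hqp : q = p ^ k) (he : 1 ≤ e) (hc : 3 * N ≤ p ^ e)
    {A : Matrix (Fin N) (Fin N) (ZMod q)}
    (hTb : ∀ z, z < q ^ N → T z < q ^ N)
    (hA : ∀ z, z < q ^ N → vecOf q N (T z) = A.mulVec (vecOf q N z)) (hx : x < q ^ N)
    (hj : j < N) : DigH q N e x T j t y ↔ y = dg q (T^[t] x) j := by
  have hq : 2 ≤ q := by
    rw [hqp]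
    exact hp.two_le.trans (Nat.le_self_pow hk.ne' p)
  constructor
  · rintro ⟨ν, hν, P, hP, hG, hy⟩
    rw [hy]
    exact (goodH_digit hp hk hqp he hc hTb hA hx hj hν hP hG t).symm
  · intro hy
    obtain ⟨ν, P, hν, hP, hG⟩ := goodH_exists (x := x) hq he hj hTb hA
    refine ⟨ν, hν, P, hP, hG, ?_⟩
    rw [hy]
    exact goodH_digit hp hk hqp he hc hTb hA hx hj hν hP hG t

theorem digH_delta {n m : ℕ} {T : ℕ → (Fin n → ℕ) → ℕ}
    (hT : DFun (n + 1) (fun w => T (w 0) (fun i => w i.succ)))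
    {τ : Fin n → (Fin m → ℕ) → ℕ} (hτ : ∀ i, DFun m (τ i))
    {q N e x j t y B : (Fin m → ℕ) → ℕ} (hq : DFun m q)
    (hN : DFun m N) (he : DFun m e) (hx : DFun m x) (hj : DFun m j) (ht : DFun m t)
    (hy : DFun m y) (hB : DFun m B)
    (h2 : ∀ v, 2 ≤ q v) (hN1 : ∀ v, 1 ≤ N v)
    (hqN : ∀ v, q v ^ N v ≤ B v) (hqe : ∀ v, q v ^ e v ≤ B v) (hel : ∀ v, e v ≤ lg (N v) + 3)
    (hTb : ∀ v z, z < q v ^ N v → T z (fun i => τ i v) < q v ^ N v)
    (hlin : ∀ v, ∃ A : Matrix (Fin (N v)) (Fin (N v)) (ZMod (q v)), ∀ z, z < q v ^ N v →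
      vecOf (q v) (N v) (T z (fun i => τ i v)) = A.mulVec (vecOf (q v) (N v) z)) :
    Delta0 m (fun v => DigH (q v) (N v) (e v) (x v) (fun z => T z (fun i => τ i v)) (j v) (t v)
      (y v)) := by
  have hQ : DFun m (fun v => q v ^ N v) := dfun_powLe hq hN hB hqN
  refine H63LB.Cor.bexLt (P := fun ν v => ∃ P, P < q v ^ N v ∧
      (GoodH (q v) (N v) (e v) (x v) (fun z => T z (fun i => τ i v)) (j v) ν P ∧
      y v = dg (q v) (cde (N v) ((X ^ t v * pol (ZMod (q v)) (q v) (N v) P) %ₘ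
        mu (ZMod (q v)) (q v) (N v) ν)) (N v - 1))) hQ ?_
  refine H63LB.Cor.bexLt (n := m + 1)
    (b := fun w => q (fun i => w i.succ) ^ N (fun i => w i.succ))
    (P := fun P w => GoodH (q (fun i => w i.succ)) (N (fun i => w i.succ))
      (e (fun i => w i.succ)) (x (fun i => w i.succ))
      (fun z => T z (fun i => τ i (fun i => w i.succ))) (j (fun i => w i.succ)) (w 0) P ∧
      y (fun i => w i.succ) = dg (q (fun i => w i.succ)) (cde (N (fun i => w i.succ))
      ((X ^ t (fun i => w i.succ) * pol (ZMod (q (fun i => w i.succ))) (q (fun i => w i.succ))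
        (N (fun i => w i.succ)) P) %ₘ mu (ZMod (q (fun i => w i.succ))) (q (fun i => w i.succ))
        (N (fun i => w i.succ)) (w 0))) (N (fun i => w i.succ) - 1)) hQ.weak ?_
  refine Delta0.and ?_ ?_
  · exact goodH_delta hT (τ := fun i w => τ i (fun i => w i.succ.succ))
      (fun i => (hτ i).weak.weak) hq.weak.weak hN.weak.weak he.weak.weak hx.weak.weak
      hj.weak.weak (DFun.proj (Fin.succ 0)) (DFun.proj 0) hB.weak.weak
      (fun w => h2 _) (fun w => hN1 _) (fun w => hqN _) (fun w => hqe _) (fun w => hel _)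
      (fun w => hTb _) (fun w => hlin _)
  · refine Delta0.eqFun hy.weak.weak (dfun_dg hq.weak.weak ?_
      (hN.weak.weak.sub (DFun.const 1)) fun w => h2 _)
    exact powX_mul_def hq.weak.weak hN.weak.weak (DFun.proj (Fin.succ 0)) hB.weak.weak
      (DFun.proj 0) ht.weak.weak (fun w => h2 _) (fun w => hqN _)

open H63LB.Cor in
/-- **Linear maps over `ℤ/q`, `q` a prime power, full regime.** -/
theorem full_iter_pp {n : ℕ} {q N B x t : (Fin n → ℕ) → ℕ} {T : ℕ → (Fin n → ℕ) → ℕ}
    (hq : DFun n q) (hN : DFun n N) (hB : DFun n B) (hx : DFun n x) (ht : DFun n t)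
    (hT : DFun (n + 1) (fun w => T (w 0) (fun i => w i.succ))) (hpp : ∀ v, IsPrimePow (q v))
    (hqN : ∀ v, q v ^ N v ≤ B v)
    (hTb : ∀ v z, z < q v ^ N v → T z v < q v ^ N v)
    (hlin : ∀ v, ∃ A : Matrix (Fin (N v)) (Fin (N v)) (ZMod (q v)),
      ∀ z, z < q v ^ N v → vecOf (q v) (N v) (T z v) = A.mulVec (vecOf (q v) (N v) z))
    (hxb : ∀ v, x v < q v ^ N v) : DFun n (fun v => (fun z => T z v)^[t v] (x v)) := by
  classical
  have h2 : ∀ v, 2 ≤ q v := fun v => (hpp v).two_le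
  have hex : ∀ v, ∃ k, 0 < k ∧ (q v).minFac.Prime ∧ q v = (q v).minFac ^ k := by
    intro v
    obtain ⟨p, k, hp, hk, hpk⟩ := (isPrimePow_nat_iff _).1 (hpp v)
    have h3 : (q v).minFac = p := by
      rw [← hpk]
      exact hp.pow_minFac hk.ne'
    exact ⟨k, hk, by rw [h3]; exact hp, by rw [h3, hpk]⟩
  choose k hk hp hqk using hex
  have hp2 : ∀ v, 2 ≤ (q v).minFac := fun v => (hp v).two_le
  obtain ⟨N', hN'def⟩ : ∃ N' : (Fin n → ℕ) → ℕ, N' = fun v => if N v = 0 then 1 else N v :=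
    ⟨_, rfl⟩
  obtain ⟨T', hT'def⟩ : ∃ T' : ℕ → (Fin n → ℕ) → ℕ,
      T' = fun z v => if N v = 0 then 0 else T z v := ⟨_, rfl⟩
  have hN0D : Delta0 n (fun v => N v = 0) := Delta0.eqFun hN (DFun.const 0)
  have hN' : DFun n N' := by
    rw [hN'def]
    exact DFun.ite hN0D (DFun.const 1) hN
  have hT' : DFun (n + 1) (fun w => T' (w 0) (fun i => w i.succ)) := by
    rw [hT'def]
    exact DFun.ite (Delta0.eqFun hN.weak (DFun.const 0)) (DFun.const 0) hT
  have hN1 : ∀ v, 1 ≤ N' v := by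
    intro v
    rw [hN'def]
    simp only
    split_ifs <;> omega
  have hNe : ∀ v, N v ≠ 0 → N' v = N v := by
    intro v hv
    rw [hN'def]
    simp only
    rw [if_neg hv]
  have hTe : ∀ v, N v ≠ 0 → ∀ z, T' z v = T z v := by
    intro v hv z
    rw [hT'def]
    simp only
    rw [if_neg hv]
  have hT0 : ∀ v, N v = 0 → ∀ z, T' z v = 0 := by
    intro v hv z
    rw [hT'def]
    simp only
    rw [if_pos hv]
  have hTb' : ∀ v z, z < q v ^ N' v → T' z v < q v ^ N' v := by
    intro v z hz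
    by_cases h0 : N v = 0
    · rw [hT0 v h0]
      exact pow_pos (by have := h2 v; omega) _
    · rw [hTe v h0]
      rw [hNe v h0] at hz ⊢
      exact hTb v z hz
  have hlin' : ∀ v, ∃ A : Matrix (Fin (N' v)) (Fin (N' v)) (ZMod (q v)), ∀ z, z < q v ^ N' v →
      vecOf (q v) (N' v) (T' z v) = A.mulVec (vecOf (q v) (N' v) z) := by
    intro v
    by_cases h0 : N v = 0
    · refine ⟨0, fun z _ => ?_⟩
      rw [hT0 v h0, Matrix.zero_mulVec]
      funext i
      show ((dg (q v) 0 i : ℕ) : ZMod (q v)) = 0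
      rw [A7.dg_zero, Nat.cast_zero]
    · rw [hNe v h0]
      obtain ⟨A, hA⟩ := hlin v
      refine ⟨A, fun z hz => ?_⟩
      rw [hTe v h0]
      exact hA z hz
  obtain ⟨e, hedef⟩ : ∃ e : (Fin n → ℕ) → ℕ, e = fun v => ee (q v).minFac (N' v) := ⟨_, rfl⟩
  have he : DFun n e := by
    rw [hedef]
    exact ee_def (minFac_def hq h2) hN' hp2
  have he1 : ∀ v, 1 ≤ e v := by
    intro v
    rw [hedef]
    exact le_max_left _ _
  have hc : ∀ v, 3 * N' v ≤ (q v).minFac ^ e v := by
    intro v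
    rw [← Nat.clog_le_iff_le_pow (by have := hp2 v; omega), hedef]
    exact le_max_right _ _
  have hmin : ∀ v, e v = 1 ∨ (q v).minFac ^ (e v - 1) < 3 * N' v := by
    intro v
    by_cases h1 : e v = 1
    · exact Or.inl h1
    · refine Or.inr ?_
      rw [← not_le, ← Nat.clog_le_iff_le_pow (by have := hp2 v; omega)]
      rw [hedef] at h1 ⊢
      simp only [ee] at h1 ⊢
      omega
  have he3 : ∀ v, e v ≤ 3 * N' v := by
    intro v
    rcases hmin v with h | h
    · have := hN1 v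
      omega
    · have h4 : e v - 1 < (q v).minFac ^ (e v - 1) :=
        Nat.lt_pow_self (by have := hp2 v; omega)
      omega
  have hel : ∀ v, e v ≤ lg (N' v) + 3 := by
    intro v
    rcases hmin v with h | h
    · omega
    · have h4 : 2 ^ (e v - 1) < 2 ^ (lg (N' v) + 3) := by
        calc 2 ^ (e v - 1) ≤ (q v).minFac ^ (e v - 1) := Nat.pow_le_pow_left (hp2 v) _
          _ < 3 * N' v := h
          _ ≤ 4 * 2 ^ (lg (N' v) + 1) := by
              have : N' v < 2 ^ (lg (N' v) + 1) := Nat.lt_pow_succ_log_self (by norm_num) _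
              omega
          _ = 2 ^ (lg (N' v) + 3) := by
              rw [show lg (N' v) + 3 = lg (N' v) + 1 + 2 by omega, pow_add _ (lg (N' v) + 1) 2]
              omega
      have h5 := (Nat.pow_lt_pow_iff_right (by norm_num)).1 h4
      omega
  have hqN1 : ∀ v, q v ^ N' v ≤ B v + q v := by
    intro v
    by_cases h0 : N v = 0
    · rw [hN'def]
      simp only
      rw [if_pos h0, pow_one]
      omega
    · rw [hNe v h0]
      exact (hqN v).trans (Nat.le_add_right _ _)
  obtain ⟨B', hB'def⟩ : ∃ B' : (Fin n → ℕ) → ℕ, B' = fun v => (B v + q v) ^ 3 := ⟨_, rfl⟩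
  have hB' : DFun n B' := by
    rw [hB'def]
    exact Pool.Agent.PTr.DFun.powConst (hB.add hq) 3
  have hqe : ∀ v, q v ^ e v ≤ B' v := by
    intro v
    rw [hB'def]
    calc q v ^ e v ≤ q v ^ (3 * N' v) := Nat.pow_le_pow_right (by have := h2 v; omega) (he3 v)
      _ = (q v ^ N' v) ^ 3 := by rw [← pow_mul, mul_comm]
      _ ≤ (B v + q v) ^ 3 := Nat.pow_le_pow_left (hqN1 v) 3
  have hqN' : ∀ v, q v ^ N' v ≤ B' v := by
    intro v
    rw [hB'def]
    exact (hqN1 v).trans (Nat.le_self_pow (by omega) _)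
  -- the digits
  have hDg : DFun (n + 1) (fun w => if w 0 < N (fun i => w i.succ) then
      dg (q (fun i => w i.succ)) ((fun z => T z (fun i => w i.succ))^[t (fun i => w i.succ)]
        (x (fun i => w i.succ))) (w 0) else 0) := by
    refine DFun.ofGraph hq.weak ?_ ?_
    · intro w
      split_ifs
      · exact (dg_lt (by have := h2 (fun i => w i.succ); omega) _ _).le
      · exact Nat.zero_le _
    · have h0 : DFun (n + 1 + 1) (fun w : Fin (n + 1 + 1) → ℕ => w 0) := DFun.proj 0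
      have h1 : DFun (n + 1 + 1) (fun w : Fin (n + 1 + 1) → ℕ => w (Fin.succ 0)) :=
        DFun.proj (Fin.succ 0)
      have hdig := digH_delta (m := n + 1 + 1) hT' (τ := fun i w => w i.succ.succ)
        (fun i => DFun.proj _) hq.weak.weak
        hN'.weak.weak he.weak.weak hx.weak.weak h1 ht.weak.weak h0 hB'.weak.weak
        (fun w => h2 _) (fun w => hN1 _) (fun w => hqN' _) (fun w => hqe _) (fun w => hel _)
        (fun w => hTb' _) (fun w => hlin' _)
      have h3 := ((Delta0.ltFun h1 hN.weak.weak).and hdig).or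
        ((Delta0.ltFun h1 hN.weak.weak).not.and (Delta0.eqFun h0 (DFun.const 0)))
      refine h3.of_iff fun w => ?_
      set v : Fin n → ℕ := fun i => w i.succ.succ with hv
      show (w 0 = if w (Fin.succ 0) < N v then
        dg (q v) ((fun z => T z v)^[t v] (x v)) (w (Fin.succ 0)) else 0) ↔ _
      by_cases hj : w (Fin.succ 0) < N v
      · rw [if_pos hj]
        have hN0 : N v ≠ 0 := by omega
        have hNv := hNe v hN0
        have hTv : (fun z => T' z v) = fun z => T z v := funext (hTe v hN0)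
        obtain ⟨A, hA⟩ := hlin v
        have h4 := digH_iff (y := w 0) (t := t v) (hp v) (hk v) (hqk v) (he1 v)
          (by have := hc v; rwa [hNv] at this) (hTb v) hA (hxb v) hj
        rw [← h4]
        constructor
        · intro h5
          refine Or.inl ⟨hj, ?_⟩
          show DigH (q v) (N' v) (e v) (x v) (fun z => T' z v) (w (Fin.succ 0)) (t v) (w 0)
          rw [hNv, hTv]
          exact h5
        · rintro (⟨_, h5⟩ | ⟨h5, _⟩)
          · have h5' : DigH (q v) (N' v) (e v) (x v) (fun z => T' z v) (w (Fin.succ 0)) (t v)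
              (w 0) := h5
            rw [hNv, hTv] at h5'
            exact h5'
          · exact absurd hj h5
      · rw [if_neg hj]
        constructor
        · intro h5
          exact Or.inr ⟨hj, h5⟩
        · rintro (⟨h5, _⟩ | ⟨_, h5⟩)
          · exact absurd h5 hj
          · exact h5
  have hcode := dfun_code (g := fun i v => if i < N v then
      dg (q v) ((fun z => T z v)^[t v] (x v)) i else 0) hq hN hB hDg h2 hqN
  have hfin : (fun v => (fun z => T z v)^[t v] (x v)) = fun v => ∑ i ∈ range (N v),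
      (if i < N v then dg (q v) ((fun z => T z v)^[t v] (x v)) i else 0) * q v ^ i := by
    funext v
    conv_lhs => rw [orbit_code (hTb v) (hxb v) (t v)]
    refine Finset.sum_congr rfl fun i hi => ?_
    rw [if_pos (mem_range.1 hi)]
  rw [hfin]
  exact hcode

end Pool.Agent.H69Fu
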