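import Pool.Agent.H63LB.Aff
import Pool.Agent.H69Fu.Core

/-!
# Full regime: iterates of affine maps, prime power modulus

An affine map `y ↦ A y + b` in dimension `N` is the restriction of the linear map
`(u, s) ↦ (A u + s b, s)` in dimension `N + 1` to `s = 1`.
-/

set_option autoImplicit false

namespace Pool.Agent.H69Fu

open Finset Polynomial Pool.Agent.Grz Pool.Agent.GAvg Pool.Agent.PTr Pool.Agent.MTr
open Pool.Agent.LPC Pool.Agent.ECD Pool.Agent.LinU Pool.Agent.H63LB

/-- affine, prime powers -/
theorem full_aff_pp {n : ℕ} {q N B x t : (Fin n → ℕ) → ℕ} {T : ℕ → (Fin n → ℕ) → ℕ}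
    (hq : DFun n q) (hN : DFun n N) (hB : DFun n B) (hx : DFun n x) (ht : DFun n t)
    (hT : DFun (n + 1) (fun w => T (w 0) (fun i => w i.succ))) (hpp : ∀ v, IsPrimePow (q v))
    (hqN : ∀ v, q v ^ N v ≤ B v) (hTb : ∀ v z, z < q v ^ N v → T z v < q v ^ N v)
    (haff : ∀ v, ∃ (A : Matrix (Fin (N v)) (Fin (N v)) (ZMod (q v))) (b : Fin (N v) → ZMod (q v)),
      ∀ z, z < q v ^ N v → vecOf (q v) (N v) (T z v) = A.mulVec (vecOf (q v) (N v) z) + b)
    (hxb : ∀ v, x v < q v ^ N v) : DFun n (fun v => (fun z => T z v)^[t v] (x v)) := by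
  classical
  have h2 : ∀ v, 2 ≤ q v := fun v => (hpp v).two_le
  have hpow : ∀ v, q v ^ N v ≤ B v := hqN
  have hqNf : DFun n (fun v => q v ^ N v) := dfun_powLe hq hN hB hpow
  -- the digits of the new map
  obtain ⟨g, hg⟩ : ∃ g : ℕ → ℕ → (Fin n → ℕ) → ℕ, g = fun i z v =>
      if i < N v then (dg (q v) (T (z % q v ^ N v) v) i +
        (z / q v ^ N v + (q v - 1)) * dg (q v) (T 0 v) i) % q v else z / q v ^ N v := ⟨_, rfl⟩
  obtain ⟨T', hT'⟩ : ∃ T' : ℕ → (Fin n → ℕ) → ℕ, T' = fun z v =>
      ∑ i ∈ range (N v + 1), g i z v * q v ^ i := ⟨_, rfl⟩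
  have hpos : ∀ v, 0 < q v ^ N v := fun v => pow_pos (by have := h2 v; omega) _
  have hgD : DFun (n + 2) (fun u => g (u 0) (u (Fin.succ 0)) (fun i => u i.succ.succ)) := by
    have hq2 : DFun (n + 2) (fun u => q (fun i => u i.succ.succ)) := hq.weak.weak
    have hN2 : DFun (n + 2) (fun u => N (fun i => u i.succ.succ)) := hN.weak.weak
    have hP2 : DFun (n + 2) (fun u => q (fun i => u i.succ.succ) ^ N (fun i => u i.succ.succ)) :=
      hqNf.weak.weak
    have hy : DFun (n + 2) (fun u => u (Fin.succ 0) %
        q (fun i => u i.succ.succ) ^ N (fun i => u i.succ.succ)) :=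
      DFun.modPos (DFun.proj _) hP2 fun u => hpos _
    have hs : DFun (n + 2) (fun u => u (Fin.succ 0) /
        q (fun i => u i.succ.succ) ^ N (fun i => u i.succ.succ)) :=
      DFun.divPos (DFun.proj _) hP2 fun u => hpos _
    have hTy : DFun (n + 2) (fun u => T (u (Fin.succ 0) %
        q (fun i => u i.succ.succ) ^ N (fun i => u i.succ.succ)) (fun i => u i.succ.succ)) :=
      DFun.app hT hy fun i => DFun.proj i.succ.succ
    have hT0 : DFun (n + 2) (fun u => T 0 (fun i => u i.succ.succ)) :=
      DFun.app hT (DFun.const 0) fun i => DFun.proj i.succ.succ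
    have hd1 : DFun (n + 2) (fun u => dg (q (fun i => u i.succ.succ)) (T (u (Fin.succ 0) %
        q (fun i => u i.succ.succ) ^ N (fun i => u i.succ.succ)) (fun i => u i.succ.succ)) (u 0)) :=
      dfun_dg hq2 hTy (DFun.proj 0) fun u => h2 _
    have hd0 : DFun (n + 2) (fun u => dg (q (fun i => u i.succ.succ))
        (T 0 (fun i => u i.succ.succ)) (u 0)) :=
      dfun_dg hq2 hT0 (DFun.proj 0) fun u => h2 _
    rw [hg]
    exact DFun.ite (Delta0.ltFun (DFun.proj 0) hN2)
      (DFun.modPos (hd1.add ((hs.add (hq2.sub (DFun.const 1))).mul hd0)) hq2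
        fun u => by have := h2 (fun i => u i.succ.succ); omega) hs
  have hT'D : DFun (n + 1) (fun w => T' (w 0) (fun i => w i.succ)) := by
    rw [hT']
    refine dfun_code (n := n + 1) (m := fun w => q fun i => w i.succ)
      (d := fun w => N (fun i => w i.succ) + 1)
      (B := fun w => B (fun i => w i.succ) * q (fun i => w i.succ))
      (g := fun i w => g i (w 0) (fun i => w i.succ)) hq.weak (hN.weak.add (DFun.const 1))
      (hB.weak.mul hq.weak) ?_ (fun w => h2 _) ?_
    · exact hgD
    · intro w
      rw [pow_succ]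
      exact Nat.mul_le_mul_right _ (hpow _)
  -- arithmetic of the new map
  have hgq : ∀ i z v, z < q v ^ (N v + 1) → g i z v < q v := by
    intro i z v hz
    rw [hg]
    dsimp only
    split_ifs with h
    · exact Nat.mod_lt _ (by have := h2 v; omega)
    · rw [pow_succ] at hz
      exact Nat.div_lt_of_lt_mul hz
  have hdgN : ∀ i z v, i < N v → dg (q v) z i = dg (q v) (z % q v ^ N v) i := by
    intro i z v hi
    exact dg_mod_pow (by have := h2 v; omega) hi
  have hmain := full_iter_pp (n := n) (q := q) (N := fun v => N v + 1)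
    (B := fun v => B v * q v) (x := fun v => x v + q v ^ N v) (t := t)
    (T := T') hq (hN.add (DFun.const 1)) (hB.mul hq) (hx.add hqNf) ht hT'D hpp
    (fun v => by rw [pow_succ]; exact Nat.mul_le_mul_right _ (hpow v)) ?_ ?_ ?_
  · -- the iterates
    have hone : ∀ v y, y < q v ^ N v → T' (y + q v ^ N v) v = T y v + q v ^ N v := by
      intro v y hy
      rw [hT']
      dsimp only
      have hdiv : (y + q v ^ N v) / q v ^ N v = 1 := by
        rw [Nat.add_div_right _ (hpos v), Nat.div_eq_of_lt hy]
      have hmod : (y + q v ^ N v) % q v ^ N v = y := by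
        rw [Nat.add_mod_right, Nat.mod_eq_of_lt hy]
      rw [sum_range_succ]
      have h3 : ∑ i ∈ range (N v), g i (y + q v ^ N v) v * q v ^ i = T y v := by
        refine Eq.trans (sum_congr rfl fun i hi => ?_) (code_dg (hTb v y hy))
        rw [hg]
        dsimp only
        rw [if_pos (mem_range.1 hi), hdiv, hmod]
        have h4 : 1 + (q v - 1) = q v := by have := h2 v; omega
        rw [h4, Nat.add_mul_mod_self_left, Nat.mod_eq_of_lt
          (dg_lt (by have := h2 v; omega) _ _)]
      rw [h3, hg]
      dsimp only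
      rw [if_neg (lt_irrefl _), hdiv, one_mul]
    have hlt : ∀ v j, (fun z => T z v)^[j] (x v) < q v ^ N v := by
      intro v j
      induction j with
      | zero => exact hxb v
      | succ j ih =>
        rw [Function.iterate_succ_apply']
        exact hTb v _ ih
    have hit : ∀ v j, (fun z => T' z v)^[j] (x v + q v ^ N v) =
        (fun z => T z v)^[j] (x v) + q v ^ N v := by
      intro v j
      induction j with
      | zero => rfl
      | succ j ih =>
        rw [Function.iterate_succ_apply', Function.iterate_succ_apply', ih]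
        exact hone v _ (hlt v j)
    have h5 := hmain.sub hqNf
    refine (show _ = (fun v => (fun z => T z v)^[t v] (x v)) from ?_) ▸ h5
    funext v
    rw [hit, Nat.add_sub_cancel]
  · -- range
    intro v z hz
    rw [hT']
    exact lt_code (by have := h2 v; omega) (fun i => g i z v) fun i _ => hgq i z v hz
  · -- linearity
    intro v
    obtain ⟨A, b, hAb⟩ := haff v
    refine ⟨affMat A b, fun z hz => ?_⟩
    rw [affMat_mulVec]
    have hq0 : 0 < q v := by have := h2 v; omega
    have hy : z % q v ^ N v < q v ^ N v := Nat.mod_lt _ (hpos v)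
    have hdig : ∀ i < N v + 1, dg (q v) (T' z v) i = g i z v := by
      intro i hi
      rw [hT']
      exact dg_code hq0 (fun i => g i z v) (fun i _ => hgq i z v hz) hi
    have hb0 : ∀ i : Fin (N v), ((dg (q v) (T 0 v) i : ℕ) : ZMod (q v)) = b i := by
      intro i
      have h3 := congrFun (hAb 0 (hpos v)) i
      have h4 : vecOf (q v) (N v) 0 = 0 := by
        funext j
        simp [vecOf, dg]
      rw [h4, Matrix.mulVec_zero, zero_add] at h3
      exact h3
    funext i
    refine Fin.lastCases ?_ (fun i => ?_) i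
    · rw [affLin_last]
      unfold vecOf
      have h3 : ((Fin.last (N v) : Fin (N v + 1)) : ℕ) = N v := rfl
      rw [h3, hdig (N v) (Nat.lt_succ_self _), hg]
      dsimp only
      rw [if_neg (lt_irrefl _)]
      unfold dg
      rw [ZMod.natCast_mod]
    · rw [affLin_castSucc]
      have h3 := congrFun (hAb (z % q v ^ N v) hy) i
      have h4 : (fun j : Fin (N v) => vecOf (q v) (N v + 1) z j.castSucc) =
          vecOf (q v) (N v) (z % q v ^ N v) := by
        funext j
        unfold vecOf
        rw [Fin.val_castSucc, hdgN j z v j.2]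
      have h5 : vecOf (q v) (N v + 1) z (Fin.last (N v)) = ((z / q v ^ N v : ℕ) : ZMod (q v)) := by
        unfold vecOf dg
        rw [ZMod.natCast_mod]
        rfl
      rw [h4, h5]
      have h6 : vecOf (q v) (N v + 1) (T' z v) i.castSucc = ((g i z v : ℕ) : ZMod (q v)) := by
        unfold vecOf
        rw [Fin.val_castSucc, hdig i (Nat.lt_succ_of_lt i.2)]
      rw [h6, hg]
      dsimp only
      rw [if_pos i.2, ZMod.natCast_mod, Nat.cast_add, Nat.cast_mul, hb0 i, Nat.cast_add,
        Nat.cast_sub hq0, ZMod.natCast_self]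
      have h7 : ((dg (q v) (T (z % q v ^ N v) v) i : ℕ) : ZMod (q v)) =
          A.mulVec (vecOf (q v) (N v) (z % q v ^ N v)) i + b i := h3
      rw [h7]
      push_cast
      ring
  · -- the starting point
    intro v
    have h3 := hxb v
    rw [pow_succ]
    have h4 : q v ^ N v * 2 ≤ q v ^ N v * q v := Nat.mul_le_mul_left _ (h2 v)
    omega

end Pool.Agent.H69Fu
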