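import Pool.Agent.H63WB.All
import Pool.Agent.H69Fu.Aff

/-!
# Full regime: all moduli

*Proof.* As in `Pool.Agent.LinU.R11`: the reduction modulo a prime power `q` which divides `m v` is
an affine map with the same `N v` and `q ^ N v ≤ m v ^ N v ≤ B v`, its iterates are in
`DFun (n + 1)` by `full_aff_pp`, and the digits of `T^[t] x` are determined by their residues
modulo these prime powers. ∎
-/

set_option autoImplicit false

namespace Pool.Agent.H69Fu

open Finset Polynomial Pool.Agent.Grz Pool.Agent.GAvg Pool.Agent.PTr Pool.Agent.MTr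
open Pool.Agent.LPC Pool.Agent.ECD Pool.Agent.LinU Pool.Agent.LinU.R11 Pool.Agent.H63WB

/-- all positive moduli -/
theorem full_aff_pos {n : ℕ} {m N B x t : (Fin n → ℕ) → ℕ} {T : ℕ → (Fin n → ℕ) → ℕ}
    (hm : DFun n m) (hN : DFun n N) (hB : DFun n B) (hx : DFun n x) (ht : DFun n t)
    (hT : DFun (n + 1) (fun w => T (w 0) (fun i => w i.succ))) (hm0 : ∀ v, 0 < m v)
    (hmN : ∀ v, m v ^ N v ≤ B v)
    (hTb : ∀ v z, z < m v ^ N v → T z v < m v ^ N v)
    (haff : ∀ v, ∃ (A : Matrix (Fin (N v)) (Fin (N v)) (ZMod (m v))) (b : Fin (N v) → ZMod (m v)),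
      ∀ z, z < m v ^ N v → vecOf (m v) (N v) (T z v) = A.mulVec (vecOf (m v) (N v) z) + b)
    (hxb : ∀ v, x v < m v ^ N v) : DFun n (fun v => (fun z => T z v)^[t v] (x v)) := by
  classical
  -- the reduced iterate
  let Y : ℕ → (Fin n → ℕ) → ℕ := fun p v => (fun z => TT m N T p z v)^[t v]
    (dn (pp m p v) (m1 m v) (nn m N p v) (x v))
  have hY : DFun (n + 1) (fun w => Y (w 0) (fun i => w i.succ)) := by
    refine full_aff_pp (q := fun w => pp m (w 0) (fun i => w i.succ))
      (N := fun w => nn m N (w 0) (fun i => w i.succ)) (B := fun w => B (fun i => w i.succ) + 1)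
      (x := fun w => dn (pp m (w 0) (fun i => w i.succ)) (m1 m (fun i => w i.succ))
        (nn m N (w 0) (fun i => w i.succ)) (x (fun i => w i.succ)))
      (t := fun w => t (fun i => w i.succ))
      (T := fun z w => TT m N T (w 0) z (fun i => w i.succ))
      (dfun_pp hm.weak (DFun.proj 0)) (dfun_nn hm.weak hN.weak (DFun.proj 0))
      (hB.weak.add (DFun.const 1))
      (wide_dn hm0 hmN hm.weak hN.weak hB.weak (DFun.proj 0) hx.weak) ht.weak ?_
      (fun w => pp_prime m _ _) (fun w => (wide_bd hm0 hmN _ _).2) (fun w z _ => ?_)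
      (fun w => ?_) (fun w => ?_)
    · have h1 := wide_up (k := n + 1 + 1) (a := fun u => u 1) (z := fun u => u 0)
        (s := fun u i => u i.succ.succ) hm0 hmN hm.weak.weak hN.weak.weak hB.weak.weak
        (DFun.proj 1) (DFun.proj 0)
      have h2 := comp' hT (k := n + 1 + 1) (s := fun i u => u i.succ.succ) h1
        (fun i => DFun.proj i.succ.succ)
      exact wide_dn (k := n + 1 + 1) (a := fun u => u 1) (s := fun u i => u i.succ.succ)
        hm0 hmN hm.weak.weak hN.weak.weak hB.weak.weak (DFun.proj 1) h2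
    · exact dn_lt (by have := pp_two m (w 0) (fun i => w i.succ); omega) _
    · set v : Fin n → ℕ := fun i => w i.succ
      by_cases hv : LinU.R11.Valid m (w 0) v
      · have e1 : nn m N (w 0) v = N v := by unfold nn; rw [if_pos hv]
        have e2 : pp m (w 0) v = w 0 := by unfold pp; rw [if_pos hv]
        have e3 := m1_eq hv (hm0 v)
        unfold TT
        rw [e1, e2, e3]
        exact aff_red (T := fun z => T z v) hv.1.pos (hm0 v) hv.2 (haff v)
      · have e1 : nn m N (w 0) v = 0 := by unfold nn; rw [if_neg hv]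
        refine ⟨0, 0, fun z _ => funext fun i => ?_⟩
        have := i.isLt
        omega
    · exact dn_lt (by have := pp_two m (w 0) (fun i => w i.succ); omega) _
  -- the digits of the iterate
  let R : (Fin n → ℕ) → ℕ := fun v => (fun z => T z v)^[t v] (x v)
  have hYR : ∀ p v, LinU.R11.Valid m p v → R v < m v ^ N v ∧
      ∀ i, i < N v → dg (pp m p v) (Y p v) i = dg (m v) (R v) i % p := by
    intro p v hv
    have e1 : nn m N p v = N v := by unfold nn; rw [if_pos hv]
    have e2 : pp m p v = p := by unfold pp; rw [if_pos hv]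
    have e3 := m1_eq hv (hm0 v)
    have h := iter_red (T := fun z => T z v) hv.1.pos (hm0 v) hv.2 (hTb v) (haff v) (hxb v) (t v)
    simp only [Y, R, TT, e1, e2, e3]
    exact h
  have hRb : ∀ v, R v < m v ^ N v := by
    intro v
    have h : ∀ j, (fun z => T z v)^[j] (x v) < m v ^ N v := by
      intro j
      induction j with
      | zero => exact hxb v
      | succ j ih =>
        rw [Function.iterate_succ_apply']
        exact hTb v _ ih
    exact h (t v)
  let G : ℕ → (Fin n → ℕ) → ℕ := fun i v => if i < N v ∧ 2 ≤ m v then dg (m v) (R v) i else 0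
  have hG : DFun (n + 1) (fun w => G (w 0) (fun i => w i.succ)) := by
    refine DFun.ofGraph (b := fun w => m (fun i => w i.succ)) hm.weak (fun w => ?_) ?_
    · simp only [G]
      split_ifs
      · exact (dg_lt (hm0 _) _ _).le
      · exact Nat.zero_le _
    · have hv : ∀ {f : (Fin n → ℕ) → ℕ}, DFun n f →
          DFun (n + 1 + 1) (fun u => f (fun i => u i.succ.succ)) := fun hf => hf.weak.weak
      have h1 : Delta0 (n + 1 + 1 + 1) (fun w =>
          LinU.R11.Valid m (w 0) (fun i => w i.succ.succ.succ) →
          w 1 % w 0 = dg (pp m (w 0) (fun i => w i.succ.succ.succ))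
            (Y (w 0) (fun i => w i.succ.succ.succ)) (w 2)) := by
        refine (delta_valid (k := n + 1 + 1 + 1) (s := fun w i => w i.succ.succ.succ)
          hm.weak.weak.weak (DFun.proj 0)).imp (Delta0.eqFun (DFun.modAny (DFun.proj 1)
          (DFun.proj 0)) (dfun_dg (dfun_pp (k := n + 1 + 1 + 1)
          (s := fun w i => w i.succ.succ.succ) hm.weak.weak.weak (DFun.proj 0))
          (comp' hY (k := n + 1 + 1 + 1) (s := fun i w => w i.succ.succ.succ) (DFun.proj 0)
            (fun i => DFun.proj i.succ.succ.succ)) (DFun.proj 2) (fun u => pp_two m _ _)))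
      have h2 := Delta0.ballFun (n := n + 1 + 1) (b := fun u => m (fun i => u i.succ.succ))
        (P := fun p u => LinU.R11.Valid m p (fun i => u i.succ.succ) →
          u 0 % p = dg (pp m p (fun i => u i.succ.succ)) (Y p (fun i => u i.succ.succ)) (u 1))
        (hv hm) h1
      have h3 : Delta0 (n + 1 + 1) (fun u => u 1 < N (fun i => u i.succ.succ) ∧
          2 ≤ m (fun i => u i.succ.succ)) :=
        (Delta0.ltFun (DFun.proj 1) (hv hN)).and (Delta0.leFun (DFun.const 2) (hv hm))
      refine ((h3.and ((Delta0.ltFun (DFun.proj 0) (hv hm)).and h2)).or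
        (h3.not.and (Delta0.eqFun (DFun.proj 0) (DFun.const 0)))).of_iff fun u => ?_
      set v : Fin n → ℕ := fun i => u i.succ.succ with hvdef
      change u 0 = (if u 1 < N v ∧ 2 ≤ m v then dg (m v) (R v) (u 1) else 0) ↔ _
      by_cases hc : u 1 < N v ∧ 2 ≤ m v
      · rw [if_pos hc]
        constructor
        · intro h
          refine Or.inl ⟨hc, ?_, fun p _ hp => ?_⟩
          · rw [h]; exact dg_lt (hm0 v) _ _
          · rw [h, (hYR p v hp).2 _ hc.1]
        · rintro (⟨_, h5, h6⟩ | ⟨h5, _⟩)
          · refine eq_of_mod h5 (dg_lt (hm0 v) _ _) fun p hp hpm => ?_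
            rw [h6 p (Nat.le_of_dvd (hm0 v) hpm) ⟨hp, hpm⟩, (hYR p v ⟨hp, hpm⟩).2 _ hc.1]
          · exact absurd hc h5
      · rw [if_neg hc]
        constructor
        · intro h
          exact Or.inr ⟨hc, h⟩
        · rintro (⟨h5, _⟩ | ⟨_, h5⟩)
          · exact absurd h5 hc
          · exact h5
  -- the code of the digits
  have hcode := dfun_code (m := m1 m) (d := fun v => if m v ≤ 1 then 0 else N v)
    (B := fun v => B v + 1) (g := G) (dfun_m1 (k := n) (s := fun v => v) hm)
    (DFun.ite (Delta0.leFun hm (DFun.const 1)) (DFun.const 0) hN) (hB.add (DFun.const 1)) hG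
    (m1_two m) (fun v => by
      unfold m1
      split_ifs with h
      · simp
      · exact (hmN v).trans (Nat.le_succ _))
  refine dfun_congr hcode fun v => ?_
  change R v = _
  by_cases h : m v ≤ 1
  · have h1 : m v = 1 := le_antisymm h (hm0 v)
    have h2 := hRb v
    rw [h1, one_pow] at h2
    rw [if_pos h, Finset.range_zero, Finset.sum_empty]
    omega
  · rw [if_neg h]
    have h3 : m1 m v = m v := by unfold m1; rw [if_neg h]
    rw [h3]
    refine (code_dg (hRb v)).symm.trans (sum_congr rfl fun i hi => ?_)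
    simp only [G]
    rw [if_pos ⟨mem_range.1 hi, by omega⟩]


end Pool.Agent.H69Fu
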