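import Pool.Agent.H39H.RelH

/-!
# Full regime: good pairs
-/

set_option autoImplicit false

namespace Pool.Agent.H69Fu

open Finset Polynomial Pool.Agent.LinU Pool.Agent.H39H

/-- the pair `(ν, P)` is good for the coordinate `j` -/
def GoodH (q N e x : ℕ) (T : ℕ → ℕ) (j ν P : ℕ) : Prop :=
  ∀ g, g < q ^ e → ∀ U, U < q ^ e → RCH q N e x T j g U →
    ∃ h, h < q ^ N ∧ H63LB.DivU q N e g U ν P h

end Pool.Agent.H69Fu
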