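import Pool.Agent.H69Fu.Def

/-!
# Full regime: good pairs and the digit formula (pure)
-/

set_option autoImplicit false

namespace Pool.Agent.H69Fu

open Finset Polynomial Module Pool.Agent.LinU Pool.Agent.LinU.A7 Pool.Agent.H39H

theorem goodH_exists {q N e x j : ℕ} {T : ℕ → ℕ} (hq : 2 ≤ q) (he : 1 ≤ e)
    (hj : j < N) {A : Matrix (Fin N) (Fin N) (ZMod q)} (hTb : ∀ z, z < q ^ N → T z < q ^ N)
    (hA : ∀ z, z < q ^ N → vecOf q N (T z) = A.mulVec (vecOf q N z)) :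
    ∃ ν P, ν < q ^ N ∧ P < q ^ N ∧ GoodH q N e x T j ν P := by
  haveI : Nontrivial (ZMod q) := ZMod.nontrivial_iff.2 (by omega)
  obtain ⟨ν, P, hν, hνN, hP, h⟩ :=
    SolR.exists_sol_rational A.mulVecLin (prj q N ⟨j, hj⟩) (vecOf q N x)
  refine ⟨cde N ν, cde N P, cde_lt hq ν, cde_lt hq P, ?_⟩
  intro g hg U hU hR
  obtain ⟨u, hs, hu⟩ := sol_of_rch hq he hj hA hTb hR
  obtain ⟨hGm, hGe⟩ := mu_monic_deg (A := ZMod q) q e g
  have h1 := h e he _ hGm hGe _ hs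
  rw [← H63LB.divU_iff hq hg hU (cde_lt hq ν) (cde_lt hq P) (by omega), mu_cde hq hν hνN,
    pol_cde hq hP, H63LB.pol_eq_uPol hq hU hj hu]
  exact h1

theorem goodH_digit {p k q N e x j ν P : ℕ} {T : ℕ → ℕ} (hp : p.Prime)
    (hk : 0 < k) (hqp : q = p ^ k) (he : 1 ≤ e) (hc : 3 * N ≤ p ^ e)
    {A : Matrix (Fin N) (Fin N) (ZMod q)} (hTb : ∀ z, z < q ^ N → T z < q ^ N)
    (hA : ∀ z, z < q ^ N → vecOf q N (T z) = A.mulVec (vecOf q N z))
    (hx : x < q ^ N) (hj : j < N) (hν : ν < q ^ N) (hP : P < q ^ N)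
    (h : GoodH q N e x T j ν P) (t : ℕ) :
    dg q (T^[t] x) j =
      dg q (cde N ((X ^ t * pol (ZMod q) q N P) %ₘ mu (ZMod q) q N ν)) (N - 1) := by
  have hq : 2 ≤ q := by
    rw [hqp]
    exact hp.two_le.trans (Nat.le_self_pow hk.ne' p)
  haveI : Nontrivial (ZMod q) := ZMod.nontrivial_iff.2 (by omega)
  obtain ⟨hMm, hMN⟩ := mu_monic_deg (A := ZMod q) q N ν
  have hmain := SolR.sol_coeff hp hk hqp (by omega) he hc A.mulVecLin (prj q N ⟨j, hj⟩)
    (vecOf q N x) hMm hMN (pol_degree q N P) (by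
      intro g hg hge u hs
      obtain ⟨U, hU, hUu⟩ := exists_code hq e (fun l : Fin e => u l ⟨j, hj⟩)
      have hu : ∀ l, l < e → ((dg q U l : ℕ) : ZMod q) = u l ⟨j, hj⟩ := fun l hl =>
        congrFun hUu ⟨l, hl⟩
      have hs' : SolR.Sol A.mulVecLin (vecOf q N x) e (mu (ZMod q) q e (cde e g)) u := by
        rw [mu_cde hq hg hge]
        exact hs
      have hR := rch_of_sol hq he hj hA hTb hs' hu
      have h4 := h (cde e g) (cde_lt hq g) U hU hR
      rw [← H63LB.divU_iff hq (cde_lt hq g) hU hν hP (by omega), mu_cde hq hg hge,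
        H63LB.pol_eq_uPol hq hU hj hu] at h4
      exact h4) t
  have h1 := orbit_vec (A := A.mulVecLin) hTb hx (fun z hz => by
    rw [hA z hz]
    rfl) t
  have h2 : ((dg q (T^[t] x) j : ℕ) : ZMod q) =
      ((X ^ t * pol (ZMod q) q N P) %ₘ mu (ZMod q) q N ν).coeff (N - 1) := by
    rw [← hmain, ← h1]
    rfl
  rw [dg_cde hq _ (by omega : N - 1 < N), ← h2, ZMod.val_natCast_of_lt]
  exact dg_lt (by omega) _ _

end Pool.Agent.H69Fu
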